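import Pool.Agent.H995R3.Kurepa.Def
import Pool.Agent.W684.FM.Ambient

/-!
# MP_47bc22_lc, Q1: it is consistent that `𝒦` is nonempty and `Δ¹₂`

Start with a model with a regular Kurepa tree (for instance a model of `V = L`). It has a family of
more than `ℵ₁` branches, indexed by a set `K`. There is a forcing notion which preserves all
cardinals and forces Martin's axiom for `ℵ₁` dense sets, and it also forces that there is a regular
Kurepa tree with a family of branches indexed by `K`. Under this axiom `𝒦` is `Π¹₁`, hence `Δ¹₂`.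

The forcing language is the one of `Pool.Agent.Helper669.Forcing`: a sentence is the set of the
conditions which force it. The sentence `KurepaHolds P K` is the literal translation of the
proposition `KurepaFor K` into the forcing language.
-/

set_option autoImplicit false

namespace Pool.Agent.Results.MP_47bc22_lc.ConsistentlyDelta12

open Set Cardinal Pool.Agent.Helper669.Forcing
open Pool.Agent.H995R3.Kurepa (Om IsKurepa IsRegular IsAleph1Tree IsSpecial uncBranches TO IsHt
  Like HasHeight ImmSucc IsPi11 IsDelta12 kurepaCodes)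

/-! ### Trees with a family of branches -/

section Ambient

/-- If `a` and `b` are different and `R a b` fails, then `R b a`: they are comparable. -/
def Cmp (R : Om → Om → Prop) (a b : Om) : Prop := a ≠ b ∧ ¬ R a b → R b a

/-- `R` is a strict partial order on `ω₁` and the predecessors of any node are comparable. -/
def IsTree (R : Om → Om → Prop) : Prop :=
  (∀ a, ¬ R a a) ∧ (∀ a b c, R a b ∧ R b c → R a c) ∧ ∀ a b c, R a c ∧ R b c → Cmp R a b

/-- `H` is the graph of a function from `ω₁` to `ω₁`, which is the height function of `R`: the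
heights of the predecessors of a node of height `β` are exactly the ordinals below `β`. -/
def IsHeight (R H : Om → Om → Prop) : Prop :=
  (∀ b, ∃ α, H b α) ∧ (∀ b α β, H b α ∧ H b β → α = β) ∧
    (∀ a b α β, R a b ∧ (H a α ∧ H b β) → α < β) ∧
      ∀ b α β, H b β ∧ α < β → ∃ a, R a b ∧ H a α

/-- Every level is nonempty, and bounded in `ω₁`, that is, countable. -/
def Levels (H : Om → Om → Prop) : Prop :=
  (∀ α, ∃ b, H b α) ∧ ∀ α, ∃ β, ∀ b, H b α → b < β

/-- `b` is an immediate successor of `a`. -/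
def Imm (R : Om → Om → Prop) (a b : Om) : Prop := R a b ∧ ∀ c, ¬ (R a c ∧ R c b)

/-- The tree is regular: rooted, every node has two immediate successors, pruned. -/
def IsReg (R H : Om → Om → Prop) : Prop :=
  (∃ r, ∀ a, a ≠ r → R r a) ∧ (∀ a, ∃ b c, b ≠ c ∧ (Imm R a b ∧ Imm R a c)) ∧
    ∀ a α β, H a α ∧ α < β → ∃ b, R a b ∧ H b β

/-- Every `B k` is a chain, is maximal, and is unbounded in `ω₁`, that is, uncountable; and `B k`
is not a subset of `B l` for `k ≠ l`. -/
def Branches {K : Type} (R : Om → Om → Prop) (B : K → Om → Prop) : Prop :=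
  (∀ k a b, B k a ∧ B k b → Cmp R a b) ∧ (∀ k a, (∀ b, B k b → Cmp R a b) → B k a) ∧
    (∀ k a, ∃ b, a < b ∧ B k b) ∧ ∀ k l, k ≠ l → ∃ a, B k a ∧ ¬ B l a

/-- There is a regular tree order on `ω₁` of height `ω₁` with countable levels, which has a family
of different uncountable branches indexed by `K`. -/
def KurepaFor (K : Type) : Prop :=
  ∃ (R H : Om → Om → Prop) (B : K → Om → Prop),
    IsTree R ∧ IsHeight R H ∧ Levels H ∧ IsReg R H ∧ Branches R B

end Ambient

/-! ### The translation into the forcing language -/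

section Names

variable {P : Type} [Preorder P]

/-- Forcing version of `Cmp`. -/
def CmpN (R : Om → Om → Set P) (a b : Om) : Set P :=
  fimp (fand (fground (a ≠ b)) (fnot (meets (R a b)))) (meets (R b a))

/-- Forcing version of `IsTree`. -/
def IsTreeN (R : Om → Om → Set P) : Set P :=
  fand (fall fun a => fnot (meets (R a a)))
    (fand (fall fun a => fall fun b => fall fun c =>
        fimp (fand (meets (R a b)) (meets (R b c))) (meets (R a c)))
      (fall fun a => fall fun b => fall fun c =>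
        fimp (fand (meets (R a c)) (meets (R b c))) (CmpN R a b)))

/-- Forcing version of `IsHeight`. -/
def IsHeightN (R H : Om → Om → Set P) : Set P :=
  fand (fall fun b => fex fun α => meets (H b α))
    (fand (fall fun b => fall fun α => fall fun β =>
        fimp (fand (meets (H b α)) (meets (H b β))) (fground (α = β)))
      (fand (fall fun a => fall fun b => fall fun α => fall fun β =>
          fimp (fand (meets (R a b)) (fand (meets (H a α)) (meets (H b β)))) (fground (α < β)))
        (fall fun b => fall fun α => fall fun β =>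
          fimp (fand (meets (H b β)) (fground (α < β)))
            (fex fun a => fand (meets (R a b)) (meets (H a α))))))

/-- Forcing version of `Levels`. -/
def LevelsN (H : Om → Om → Set P) : Set P :=
  fand (fall fun α => fex fun b => meets (H b α))
    (fall fun α => fex fun β => fall fun b => fimp (meets (H b α)) (fground (b < β)))

/-- Forcing version of `Imm`. -/
def ImmN (R : Om → Om → Set P) (a b : Om) : Set P :=
  fand (meets (R a b)) (fall fun c => fnot (fand (meets (R a c)) (meets (R c b))))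

/-- Forcing version of `IsReg`. -/
def IsRegN (R H : Om → Om → Set P) : Set P :=
  fand (fex fun r => fall fun a => fimp (fground (a ≠ r)) (meets (R r a)))
    (fand (fall fun a => fex fun b => fex fun c =>
        fand (fground (b ≠ c)) (fand (ImmN R a b) (ImmN R a c)))
      (fall fun a => fall fun α => fall fun β => fimp (fand (meets (H a α)) (fground (α < β)))
        (fex fun b => fand (meets (R a b)) (meets (H b β)))))

/-- Forcing version of `Branches`. -/
def BranchesN {K : Type} (R : Om → Om → Set P) (B : K → Om → Set P) : Set P :=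
  fand (fall fun k => fall fun a => fall fun b =>
      fimp (fand (meets (B k a)) (meets (B k b))) (CmpN R a b))
    (fand (fall fun k => fall fun a =>
        fimp (fall fun b => fimp (meets (B k b)) (CmpN R a b)) (meets (B k a)))
      (fand (fall fun k => fall fun a => fex fun b => fand (fground (a < b)) (meets (B k b)))
        (fall fun k => fall fun l => fimp (fground (k ≠ l))
          (fex fun a => fand (meets (B k a)) (fnot (meets (B l a)))))))

/-- The sentence `KurepaFor K` of the forcing language. -/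
def KurepaHolds (P : Type) [Preorder P] (K : Type) : Set P :=
  fex fun R : Om → Om → Set P => fex fun H : Om → Om → Set P => fex fun B : K → Om → Set P =>
    fand (IsTreeN R) (fand (IsHeightN R H) (fand (LevelsN H) (fand (IsRegN R H)
      (BranchesN R B))))

/-! ### Ground model trees stay trees -/

theorem meets_fg (h : Prop) : meets (fground (P := P) h) = fground h := by
  ext p
  constructor
  · intro hp
    obtain ⟨_, _, _, hs, _⟩ := hp p le_rfl
    exact hs
  · intro hp
    exact meets_of_mem hp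

theorem fnot_fg (h : Prop) : fnot (fground (P := P) h) = fground (¬ h) := by
  ext p
  constructor
  · intro hp
    exact hp p le_rfl
  · intro hp q _
    exact hp

theorem fand_fg (h h' : Prop) :
    fand (fground (P := P) h) (fground h') = fground (h ∧ h') := rfl

theorem fall_fg {ι : Type} (h : ι → Prop) :
    (fall fun i => fground (P := P) (h i)) = fground (∀ i, h i) := rfl

theorem fimp_fg (h h' : Prop) :
    fimp (fground (P := P) h) (fground h') = fground (h → h') := by
  ext p
  rw [mem_fimp]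
  constructor
  · intro hp hh
    obtain ⟨_, _, hr⟩ := hp p le_rfl hh
    exact hr
  · intro hp q _ hq
    exact ⟨q, le_rfl, hp hq⟩

theorem fex_fg {ι : Type} (h : ι → Prop) :
    (fex fun i => fground (P := P) (h i)) = fground (∃ i, h i) := by
  ext p
  rw [mem_fex]
  constructor
  · intro hp
    obtain ⟨_, _, i, hi⟩ := hp p le_rfl
    exact ⟨i, hi⟩
  · rintro ⟨i, hi⟩ q _
    exact ⟨q, le_rfl, i, hi⟩

theorem kurepaHolds_of_for {K : Type} (h : KurepaFor K) (p : P) : p ∈ KurepaHolds P K := by
  obtain ⟨R, H, B, h1, h2, h3, h4, h5⟩ := h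
  refine mem_fex.2 fun q _ => ⟨q, le_rfl, fun a b => fground (R a b),
    mem_fex.2 fun q' _ => ⟨q', le_rfl, fun a b => fground (H a b),
      mem_fex.2 fun r _ => ⟨r, le_rfl, fun k b => fground (B k b), ?_⟩⟩⟩
  refine ⟨?_, ?_, ?_, ?_, ?_⟩
  · simp only [IsTreeN, CmpN, meets_fg, fnot_fg, fand_fg, fall_fg, fimp_fg, fex_fg]
    exact h1
  · simp only [IsHeightN, CmpN, meets_fg, fnot_fg, fand_fg, fall_fg, fimp_fg, fex_fg]
    exact h2
  · simp only [LevelsN, CmpN, meets_fg, fnot_fg, fand_fg, fall_fg, fimp_fg, fex_fg]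
    exact h3
  · simp only [IsRegN, ImmN, CmpN, meets_fg, fnot_fg, fand_fg, fall_fg, fimp_fg, fex_fg]
    exact h4
  · simp only [BranchesN, CmpN, meets_fg, fnot_fg, fand_fg, fall_fg, fimp_fg, fex_fg]
    exact h5

end Names

/-! ### The set `ω₁` -/

theorem mk_Iio_lt (o : Ordinal.{0}) (ho : o = (aleph 1).ord) (a : o.ToType) :
    #(Iio a) < aleph 1 := by
  subst ho
  exact Cardinal.mk_Iio_toType_ord_lt a

theorem mk_Om : #Om = aleph 1 := by
  rw [Cardinal.mk_toType, Ordinal.card_omega]

theorem like_Om : Like Om := by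
  constructor
  · intro a
    have := mk_Iio_lt _ (Cardinal.ord_aleph 1).symm a
    rw [← Cardinal.le_aleph0_iff_set_countable]
    rwa [← Cardinal.lt_aleph_one_iff]
  · intro hc
    have := Cardinal.mk_le_aleph0_iff.mpr hc
    rw [mk_Om] at this
    exact absurd this (not_le.mpr Cardinal.aleph0_lt_aleph_one)

/-! ### The two forms of the existence of a Kurepa tree -/

theorem cmp_of_or {R : Om → Om → Prop} {a b : Om} (h : a = b ∨ R a b ∨ R b a) : Cmp R a b := by
  rintro ⟨h1, h2⟩
  rcases h with h | h | h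
  · exact absurd h h1
  · exact absurd h h2
  · exact h

theorem or_of_cmp {R : Om → Om → Prop} {a b : Om} (h : Cmp R a b) : a = b ∨ R a b ∨ R b a := by
  by_cases h1 : a = b
  · exact Or.inl h1
  · by_cases h2 : R a b
    · exact Or.inr (Or.inl h2)
    · exact Or.inr (Or.inr (h ⟨h1, h2⟩))

theorem succ_aleph_one : (aleph 2 : Cardinal.{0}) = Order.succ (aleph 1) := by
  rw [succ_aleph]
  congr 1
  norm_num

theorem for_of_kurepa {R : Om → Om → Prop} (hK : IsKurepa R) (hreg : IsRegular R) :
    ∃ K : Type, aleph 1 < #K ∧ KurepaFor K := by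
  obtain ⟨⟨h1, h2, h3⟩, h4⟩ := hK
  have hto := Pool.Agent.H995R3.Kurepa.isTreeOrder_iff.mp h1
  have hpc : ∀ b, {a | R a b}.Countable := by
    intro b
    obtain ⟨α, ⟨φ⟩⟩ := h2 b
    have h1 : Countable {ξ // ξ < α} := (like_Om.cnt α).to_subtype
    have : Countable {a // R a b} := φ.toEquiv.countable_iff.mpr h1
    exact Set.countable_coe_iff.mp this
  obtain ⟨r, hr⟩ := Pool.Agent.H995R3.Kurepa.exists_ht like_Om hto hpc
  have hH := Pool.Agent.H995R3.Kurepa.hasHeight_iff hto hr
  refine ⟨uncBranches R, lt_of_lt_of_le ?_ h4, R, fun b α => r b = α, fun k a => a ∈ k.1,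
    ⟨hto.irr, fun a b c h => hto.tr a b c h.1 h.2, fun a b c h => cmp_of_or (hto.lin a b c h.1 h.2)⟩,
    ⟨fun b => ⟨r b, rfl⟩, fun b α β h => h.1.symm.trans h.2, ?_, ?_⟩, ⟨?_, ?_⟩,
    ⟨hreg.1, ?_, ?_⟩, ?_, ?_, ?_, ?_⟩
  · rw [succ_aleph_one]
    exact Order.lt_succ _
  · rintro a b _ _ ⟨hab, rfl, rfl⟩
    exact Pool.Agent.H995R3.Kurepa.ht_mono hr hab
  · rintro b α _ ⟨rfl, hα⟩
    exact (hr b α).mp hα
  · intro α
    obtain ⟨b, hb⟩ := (h3 α).1
    exact ⟨b, (hH b α).mp hb⟩
  · intro α
    obtain ⟨β, hβ⟩ := like_Om.bound (h3 α).2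
    exact ⟨β, fun b hb => hβ b ((hH b α).mpr hb)⟩
  · intro a
    obtain ⟨b, c, hbc, hb, hc⟩ := hreg.2.1 a
    exact ⟨b, c, hbc, ⟨hb.1, fun i hi => hb.2 ⟨i, hi⟩⟩, ⟨hc.1, fun i hi => hc.2 ⟨i, hi⟩⟩⟩
  · rintro a α β ⟨rfl, hβ⟩
    obtain ⟨b, hb, hb'⟩ := hreg.2.2 a (r a) β ((hH a _).mpr rfl) hβ
    exact ⟨b, hb, (hH b β).mp hb'⟩
  · rintro ⟨k, hk⟩ a b ⟨ha, hb⟩
    apply cmp_of_or
    by_cases hab : a = b
    · exact Or.inl hab
    · exact Or.inr (hk.1.1 ha hb hab)
  · rintro ⟨k, hk⟩ a ha
    have hch : IsChain R (insert a k) := by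
      refine hk.1.1.insert fun b hb hne => ?_
      rcases or_of_cmp (ha b hb) with h | h
      · exact absurd h hne
      · exact h
    have := hk.1.2 hch (Set.subset_insert a k)
    show a ∈ k
    rw [this]
    exact Set.mem_insert a k
  · rintro ⟨k, hk⟩ a
    by_contra hcon
    push Not at hcon
    apply hk.2
    obtain ⟨b, hb⟩ := like_Om.exists_gt a
    refine (like_Om.cnt b).mono fun c hc => ?_
    by_contra hcb
    exact hcon c (lt_of_lt_of_le hb (not_lt.mp hcb)) hc
  · rintro ⟨k, hk⟩ ⟨l, hl⟩ hkl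
    by_contra hcon
    push Not at hcon
    exact hkl (Subtype.ext (hk.1.2 hl.1.1 hcon))

theorem kurepa_of_for {K : Type} (hK : aleph 1 < #K) (h : KurepaFor K) :
    ∃ R : Om → Om → Prop, IsKurepa R ∧ IsRegular R := by
  obtain ⟨R, H, B, ⟨t1, t2, t3⟩, ⟨e1, e2, e3, e4⟩, ⟨l1, l2⟩, ⟨r1, r2, r3⟩, b1, b2, b3, b4⟩ := h
  choose r hr using e1
  have hH' : ∀ b α, H b α ↔ r b = α := by
    intro b α
    constructor
    · intro hb
      exact e2 b _ _ ⟨hr b, hb⟩
    · rintro rfl
      exact hr b
  have hmono : ∀ a b, R a b → r a < r b := fun a b hab => e3 a b _ _ ⟨hab, hr a, hr b⟩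
  have hto : TO R := by
    refine ⟨t1, fun a b c h h' => t2 a b c ⟨h, h'⟩, fun a b c h h' => or_of_cmp (t3 a b c ⟨h, h'⟩),
      ?_⟩
    exact Subrelation.wf (fun {a b} hab => hmono a b hab) (InvImage.wf r wellFounded_lt)
  have hht : IsHt R r := by
    intro b α
    constructor
    · intro hα
      obtain ⟨a, ha, ha'⟩ := e4 b α (r b) ⟨hr b, hα⟩
      exact ⟨a, ha, (hH' a α).mp ha'⟩
    · rintro ⟨a, ha, rfl⟩
      exact hmono a b ha
  have hH := Pool.Agent.H995R3.Kurepa.hasHeight_iff hto hht
  refine ⟨R, ⟨⟨Pool.Agent.H995R3.Kurepa.isTreeOrder_iff.mpr hto, fun b => ⟨r b, (hH b _).mpr rfl⟩,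
    fun α => ⟨?_, ?_⟩⟩, ?_⟩, r1, ?_, ?_⟩
  · obtain ⟨b, hb⟩ := l1 α
    exact ⟨b, (hH b α).mpr ((hH' b α).mp hb)⟩
  · obtain ⟨β, hβ⟩ := l2 α
    exact (like_Om.cnt β).mono fun b hb => hβ b ((hH' b α).mpr ((hH b α).mp hb))
  · rw [succ_aleph_one]
    refine Order.succ_le_of_lt (lt_of_lt_of_le hK ?_)
    have hmem : ∀ k, {a | B k a} ∈ uncBranches R := by
      intro k
      refine ⟨⟨?_, ?_⟩, ?_⟩
      · intro a ha b hb hab
        rcases or_of_cmp (b1 k a b ⟨ha, hb⟩) with h | h
        · exact absurd h hab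
        · exact h
      · intro t ht hkt
        refine Set.Subset.antisymm hkt fun a ha => b2 k a fun b hb => cmp_of_or ?_
        by_cases hab : a = b
        · exact Or.inl hab
        · exact Or.inr (ht ha (hkt hb) hab)
      · intro hc
        obtain ⟨c, hc⟩ := like_Om.bound hc
        obtain ⟨b, hb, hb'⟩ := b3 k c
        exact lt_asymm hb (hc b hb')
    refine Cardinal.mk_le_of_injective (f := fun k => (⟨{a | B k a}, hmem k⟩ : uncBranches R)) ?_
    intro k l hkl
    by_contra hne
    obtain ⟨a, ha, ha'⟩ := b4 k l hne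
    have h5 : {a | B k a} = {a | B l a} := congrArg Subtype.val hkl
    have h6 : a ∈ {a | B l a} := h5 ▸ ha
    exact ha' h6
  · intro a
    obtain ⟨b, c, hbc, hb, hc⟩ := r2 a
    exact ⟨b, c, hbc, ⟨hb.1, fun ⟨i, hi⟩ => hb.2 i hi⟩, ⟨hc.1, fun ⟨i, hi⟩ => hc.2 i hi⟩⟩
  · intro a α β ha hαβ
    obtain ⟨b, hb, hb'⟩ := r3 a α β ⟨(hH' a α).mpr ((hH a α).mp ha), hαβ⟩
    exact ⟨b, hb, (hH b β).mpr ((hH' b β).mp hb')⟩

/-! ### Martin's axiom -/

theorem ma_of_ma (hMA : Pool.Agent.W684.MartinAxiomAleph1) :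
    Pool.Agent.H995R3.Kurepa.MartinAxiomAleph1 := by
  intro P _ _ hccc D hD hd
  exact hMA P hccc D hD hd

/-- Under `MA_{ℵ₁}` every `ℵ₁`-tree on `ω₁` with at most `ℵ₁` uncountable branches is special. -/
theorem special_of_MA_Om (hMA : Pool.Agent.H995R3.Kurepa.MartinAxiomAleph1)
    (R : Om → Om → Prop) (hR : IsAleph1Tree R) (hb : #(uncBranches R) ≤ aleph 1) :
    IsSpecial R := by
  have hto := Pool.Agent.H995R3.Kurepa.isTreeOrder_iff.mp hR.1
  have hpc : ∀ b, {a | R a b}.Countable := by
    intro b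
    obtain ⟨α, ⟨φ⟩⟩ := hR.2.1 b
    have h1 : Countable {ξ // ξ < α} := (like_Om.cnt α).to_subtype
    have : Countable {a // R a b} := φ.toEquiv.countable_iff.mpr h1
    exact Set.countable_coe_iff.mp this
  exact Pool.Agent.H995R3.Kurepa.special_of_MA hMA like_Om mk_Om.le hto hpc (by rw [mk_Om]; exact hb)

/-- (1) Some preordered set `P` of forcing conditions forces that all cardinals are preserved, that
`ω₁` is preserved, that Martin's axiom for `ℵ₁` dense sets holds and, for every ground model set `K`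
which indexes a family of branches of some regular tree as in `KurepaFor`, that it still does.
(2) The form of Martin's axiom in (1) is equivalent to the usual one. (3) There is a regular Kurepa
tree on `ω₁` if and only if `KurepaFor K` holds for some `K` with `ℵ₁ < #K`. (4) If Martin's axiom
for `ℵ₁` dense sets holds, then the set `𝒦` of the codes of regular Kurepa trees is `Π¹₁`, it is
`Δ¹₂`, and it is nonempty if `KurepaFor K` holds for some `K` with `ℵ₁ < #K`. -/
theorem result :
    (∃ (P : Type) (_ : Preorder P), Nonempty P ∧ ∀ p : P,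
      p ∈ CardinalsPreserved.{0, 0} P ∧ p ∈ Pool.Agent.W684.FM.OmegaOnePreserved P ∧
        p ∈ Pool.Agent.W684.FM.MartinHolds P Pool.Agent.W684.FM.Om1 ∧
          ∀ K : Type, KurepaFor K → p ∈ KurepaHolds P K) ∧
    (Pool.Agent.W684.FM.MartinFor Pool.Agent.W684.FM.Om1 ↔ Pool.Agent.W684.MartinAxiomAleph1) ∧
    ((∃ R : Om → Om → Prop, IsKurepa R ∧ IsRegular R) ↔ ∃ K : Type, aleph 1 < #K ∧ KurepaFor K) ∧
    (Pool.Agent.W684.MartinAxiomAleph1 → ∀ (e : Om × Om ≃ Om) (zero one : Om), zero ≠ one →
      IsPi11 Om (kurepaCodes e zero one) ∧ IsDelta12 Om (kurepaCodes e zero one) ∧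
        ((∃ K : Type, aleph 1 < #K ∧ KurepaFor K) → (kurepaCodes e zero one).Nonempty)) := by
  classical
  refine ⟨?_, Pool.Agent.W684.FM.martinFor_om1_iff, ⟨?_, ?_⟩, ?_⟩
  · obtain ⟨P, hP, hne, h⟩ := Pool.Agent.W684.FM.exists_forcing Pool.Agent.W684.FM.Om1
    exact ⟨P, hP, hne, fun p => ⟨(h p).1, (h p).2.1, (h p).2.2, fun K hK =>
      kurepaHolds_of_for hK p⟩⟩
  · rintro ⟨R, h, h'⟩
    exact for_of_kurepa h h'
  · rintro ⟨K, hK, h⟩
    exact kurepa_of_for hK h
  · intro hMA e zero one h01
    have h1 : IsPi11 Om (kurepaCodes e zero one) :=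
      Pool.Agent.H995R3.Kurepa.pi_kurepa like_Om mk_Om e h01 fun R hR _ hb =>
        special_of_MA_Om (ma_of_ma hMA) R hR hb
    refine ⟨h1, Pool.Agent.H995R3.Kurepa.delta_of_pi like_Om e h1, ?_⟩
    rintro ⟨K, hK, h⟩
    obtain ⟨R, hR, hreg⟩ := kurepa_of_for hK h
    refine ⟨fun η => if R (e.symm η).1 (e.symm η).2 then one else zero, R, ?_, hR, hreg⟩
    intro a b
    constructor
    · intro h
      show (if R (e.symm (e (a, b))).1 (e.symm (e (a, b))).2 then one else zero) = one
      simp [h]
    · intro h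
      show (if R (e.symm (e (a, b))).1 (e.symm (e (a, b))).2 then one else zero) = zero
      simp [h]

end Pool.Agent.Results.MP_47bc22_lc.ConsistentlyDelta12
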